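import Pool.Agent.H.MP_0e7155_gt.Bern

set_option autoImplicit false

/-!
# Sets of points of local compactness and relatively compact sets

The answer is positive if `C` is the union of a set of points at which the space is locally compact and a
set with compact closure.
-/

open Set Topology

namespace Pool.Agent.Results.MP_0e7155_gt.CompactParts

theorem result {X : Type*} [MetricSpace X] [TopologicalSpace.SeparableSpace X] [ConnectedSpace X]
    (cip : ∀ A B : Set X, IsPreconnected A → IsPreconnected B → IsPreconnected (A ∩ B))
    {C₁ C₂ : Set X} (hC : ∀ p ∈ C₁ ∪ C₂, IsPreconnected ({p}ᶜ : Set X))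
    (h₁ : ∀ p ∈ C₁, ∃ N ∈ 𝓝 p, IsCompact N) (h₂ : IsCompact (closure C₂)) :
    IsPreconnected (C₁ ∪ C₂)ᶜ := by
  have : SecondCountableTopology X := UniformSpace.secondCountable_of_separable X
  exact H.MP_0e7155_gt.preconnected_compl_of_not_sep (H.MP_0e7155_gt.not_sep_union cip
    (H.MP_0e7155_gt.not_sep_of_locallyCompact cip (fun p hp => hC p (Or.inl hp)) h₁)
    (H.MP_0e7155_gt.not_sep_of_compact_closure cip (fun p hp => hC p (Or.inr hp)) h₂))

end Pool.Agent.Results.MP_0e7155_gt.CompactParts
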