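import Pool.Agent.H.MP_0e7155_gt.Basic

set_option autoImplicit false

/-!
# Components of the complement of a closed connected set

In a connected metric space with the connected intersection property, each component of the complement of a
nonempty closed connected set is open and has exactly one boundary point, which is a cut point of the space as
soon as the closed set has more than one point.  In particular, if such a space has no cut points, all of
its connected subsets with more than one point are dense.
-/

open Set

namespace Pool.Agent.Results.MP_0e7155_gt.ComponentRoots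

theorem result {X : Type*} [MetricSpace X] [ConnectedSpace X]
    (cip : ∀ A B : Set X, IsPreconnected A → IsPreconnected B → IsPreconnected (A ∩ B))
    {K : Set X} (hKclosed : IsClosed K) (hK : IsConnected K) {y : X} (hy : y ∉ K) :
    IsOpen (connectedComponentIn Kᶜ y) ∧
      ∃ p ∈ K, closure (connectedComponentIn Kᶜ y) = insert p (connectedComponentIn Kᶜ y) ∧
        (K ≠ {p} → ¬ IsPreconnected ({p}ᶜ : Set X)) := by
  obtain ⟨L, hL, hLc, hyL, hLK, hL'⟩ :=
    H.MP_0e7155_gt.exists_component cip hK.isPreconnected hKclosed hK.nonempty hy
  obtain ⟨p, hpK, hcl, hpL⟩ :=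
    H.MP_0e7155_gt.exists_root cip hK.isPreconnected hK.nonempty hL hLc ⟨y, hyL⟩ hLK hL'
  have hcomp := H.MP_0e7155_gt.component_eq hL hLc hyL hLK hL'
  rw [hcomp]
  refine ⟨hL, p, hpK, hcl, fun hKp => ?_⟩
  obtain ⟨k, hk, hkp⟩ : ∃ k ∈ K, k ≠ p := by
    by_contra hcon
    push Not at hcon
    exact hKp (Subset.antisymm hcon (singleton_subset_iff.2 hpK))
  exact H.MP_0e7155_gt.root_cut hL ⟨y, hyL⟩ hLK hcl hpL hk hkp

end Pool.Agent.Results.MP_0e7155_gt.ComponentRoots
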