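import Pool.Agent.H.MP_0e7155_gt.CE.DatE
import Pool.Agent.H.MP_0e7155_gt.CE.Cip
import Pool.Agent.H.MP_0e7155_gt.CE.Fin

/-!
# MP_0e7155_gt, Q1: a counterexample in ZFC

There are a connected separable metric space `X` in which the intersection of any two connected sets is
connected (the empty set counts as connected) and a countable set `C` of non-cut points of `X` such that
`X \ C` is not connected.
-/

open Set Topology Cardinal

namespace Pool.Agent.Results.MP_0e7155_gt.Disproof

open Pool.Agent.H.MP_0e7155_gt.CE

theorem result :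
    ∃ (X : Type) (_ : MetricSpace X), TopologicalSpace.SeparableSpace X ∧ ConnectedSpace X ∧
      (∀ A B : Set X, IsPreconnected A → IsPreconnected B → IsPreconnected (A ∩ B)) ∧
      ∃ C : Set X, C.Countable ∧ (∀ p ∈ C, IsConnected ({p}ᶜ : Set X)) ∧
        ¬ IsPreconnected (Cᶜ : Set X) := by
  obtain ⟨D⟩ := exists_Dat
  have h1 := X_metrizable D
  have h2 := X_second D
  refine ⟨X D, TopologicalSpace.metrizableSpaceMetric (X D), ?_, X_conn D, cip D,
    Set.range (kk D), Set.countable_range _, ?_, cut_all D⟩
  · exact TopologicalSpace.SecondCountableTopology.to_separableSpace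
  · rintro p ⟨q, rfl⟩
    exact ⟨⟨pp D 0, pp_ne_kk D 0 q⟩, noncut D q⟩

end Pool.Agent.Results.MP_0e7155_gt.Disproof
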