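import Pool.Agent.H.MP_0e7155_gt.Sep

set_option autoImplicit false

/-!
# Spaces with good cut points

The answer is positive if at each cut point, and at some point outside of `C`, the space is locally compact or
has arbitrarily small connected neighbourhoods.
-/

open Set Topology

namespace Pool.Agent.Results.MP_0e7155_gt.NiceCutPoints

theorem result {X : Type*} [MetricSpace X] [ConnectedSpace X]
    (cip : ∀ A B : Set X, IsPreconnected A → IsPreconnected B → IsPreconnected (A ∩ B))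
    (hcut : ∀ p : X, ¬ IsPreconnected ({p}ᶜ : Set X) →
      (∃ N ∈ 𝓝 p, IsCompact N) ∨ ∀ O ∈ 𝓝 p, ∃ G ∈ 𝓝 p, G ⊆ O ∧ IsPreconnected G)
    {C : Set X} (hC : ∀ p ∈ C, IsPreconnected ({p}ᶜ : Set X))
    (hx : ∃ x ∉ C, (∃ N ∈ 𝓝 x, IsCompact N) ∨ ∀ O ∈ 𝓝 x, ∃ G ∈ 𝓝 x, G ⊆ O ∧ IsPreconnected G) :
    IsPreconnected Cᶜ :=
  H.MP_0e7155_gt.preconnected_compl_of_nice cip hC hcut hx

end Pool.Agent.Results.MP_0e7155_gt.NiceCutPoints
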